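import Pool.Agent.V1137.Pm2

/-!
For every admissible `f` and most odd `n` the number of representations `n = f(p_1) + p_2` in primes
`p_1`, `p_2` has the expected order of magnitude already if `p_1` is restricted to primes which are
isolated: there is no other prime at distance at most `Λ log p_1` from `p_1`.
-/

set_option autoImplicit false

open Finset Filter Topology

namespace Pool.Agent.Results.MP_d9bc60_nt.IsolatedFirstPrime

/-- There is no prime `q ≠ p` with `|q - p| ≤ Λ log p`. -/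
def Isolated (Λ : ℝ) (p : ℕ) : Prop :=
  ∀ q : ℕ, q.Prime → |(q : ℝ) - p| ≤ Λ * Real.log p → q = p

open Classical in
/-- The isolated primes `p ≤ x` for which `n - f(p)`, `f = x ^ 2 + b x + c`, is a (positive) prime. -/
noncomputable def representations (b c : ℤ) (Λ : ℝ) (n x : ℕ) : Finset ℕ :=
  (Icc 1 x).filter (fun p => p.Prime ∧ Isolated Λ p ∧
    ((n : ℤ) - ((p : ℤ) ^ 2 + b * p + c)).toNat.Prime)

open Classical in
/-- The odd `n ≤ x ^ 2` with fewer than `δ x / (log x) ^ 2` representations. -/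
noncomputable def exceptions (b c : ℤ) (Λ δ : ℝ) (x : ℕ) : Finset ℕ :=
  (Icc 1 (x ^ 2)).filter (fun n => Odd n ∧
    ((representations b c Λ n x).card : ℝ) < δ * (x / Real.log x ^ 2))

open Polynomial in
/-- the polynomial `X ^ 2 + b X` -/
noncomputable def gb (b : ℤ) : ℤ[X] := C 1 * X ^ 2 + C b * X + C 0

lemma gb_eval (b : ℤ) (n : ℤ) : (gb b).eval n = n ^ 2 + b * n := by
  unfold gb
  simp only [Polynomial.eval_add, Polynomial.eval_mul, Polynomial.eval_C, Polynomial.eval_pow,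
    Polynomial.eval_X]
  ring

lemma gb_deg (b : ℤ) : (gb b).natDegree = 2 := by
  unfold gb
  apply Polynomial.natDegree_quadratic
  norm_num

lemma gb_lead (b : ℤ) : 0 < (gb b).leadingCoeff := by
  unfold gb
  rw [Polynomial.leadingCoeff_quadratic (by norm_num)]
  norm_num

open Pool.Agent.V1137.Unav in
lemma loc (b c : ℤ) (hbc : Odd (b + c)) (hb : ¬ (3 : ℤ) ∣ b) (n k : ℕ) (hn : Odd n)
    (hk : (k : ℤ) = n - c) : Loc1 (-1) (gb b) k := by
  have key : ∀ y : ℤ, (k : ℤ) + -1 * (gb b).eval y = n - (y ^ 2 + b * y + c) := by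
    intro y
    rw [gb_eval, hk]
    ring
  obtain ⟨t, ht⟩ := hbc
  obtain ⟨u, hu⟩ := hn
  intro l hl
  by_cases hl2 : l = 2
  · subst hl2
    refine ⟨1, by norm_num, ?_⟩
    rw [key]
    push_cast
    omega
  by_cases hl3 : l = 3
  · subst hl3
    by_cases h : (3 : ℤ) ∣ (n : ℤ) - (1 ^ 2 + b * 1 + c)
    · refine ⟨2, by norm_num, ?_⟩
      rw [key]
      push_cast
      omega
    · refine ⟨1, by norm_num, ?_⟩
      rw [key]
      exact_mod_cast h
  have hl5 : 5 ≤ l := by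
    have := hl.two_le
    by_contra hc
    have : l = 4 := by omega
    subst this
    exact absurd hl (by norm_num)
  have hnd : ∀ n : ℕ, 0 < n → n < 5 → ¬ (l : ℤ) ∣ (n : ℤ) := by
    intro n hn hn5 hd
    have := Nat.le_of_dvd hn (by exact_mod_cast hd)
    omega
  by_contra hcon
  push Not at hcon
  have e1 := hcon 1 (by simpa using hnd 1 (by norm_num) (by norm_num))
  have e2 := hcon 2 (by simpa using hnd 2 (by norm_num) (by norm_num))
  have e3 := hcon 3 (by simpa using hnd 3 (by norm_num) (by norm_num))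
  rw [key] at e1 e2 e3
  have h5 := (e2.sub e3).sub (e1.sub e2)
  have h6 : (n : ℤ) - (2 ^ 2 + b * 2 + c) - (n - (3 ^ 2 + b * 3 + c)) -
      (n - (1 ^ 2 + b * 1 + c) - (n - (2 ^ 2 + b * 2 + c))) = 2 := by ring
  rw [h6] at h5
  exact hnd 2 (by norm_num) (by norm_num) (by exact_mod_cast h5)

open Pool.Agent.V1137.Unav in
/-- **Representations `n = f(p_1) + p_2` with an isolated prime `p_1`.** Let `f = x ^ 2 + b x + c`
with `b` and `c` of opposite parity and `3 ∤ b`. For all `Λ > 0` and `κ > 0` there is `δ > 0` such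
that for all large `x` and all odd `n ≤ x ^ 2`, with at most `κ x ^ 2` exceptions, there are at least
`δ x / (log x) ^ 2` primes `p ≤ x` for which `n - f(p)` is prime and there is no prime `q ≠ p` with
`|q - p| ≤ Λ log p`. -/
theorem result (b c : ℤ) (hbc : Odd (b + c)) (hb : ¬ (3 : ℤ) ∣ b) (Λ : ℝ) (hΛ : 0 < Λ) (κ : ℝ)
    (hκ : 0 < κ) : ∃ δ : ℝ, 0 < δ ∧ ∀ᶠ x : ℕ in atTop,
      ((exceptions b c Λ δ x).card : ℝ) ≤ κ * (x : ℝ) ^ 2 := by
  classical
  obtain ⟨δ, hδ, x₀, h⟩ := one_pm (-1) (Or.inr rfl) (gb b) (by rw [gb_deg]; norm_num) (gb_lead b)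
    (isolated Λ) (isolated_most Λ hΛ) (c.natAbs + 1) (κ / 2) (by positivity)
  refine ⟨δ, hδ, ?_⟩
  rw [eventually_atTop]
  refine ⟨max x₀ (⌈2 * (c.natAbs : ℝ) / κ⌉₊ + 1), fun x hx => ?_⟩
  have hx0 : x₀ ≤ x := (le_max_left _ _).trans hx
  have hx1 : ⌈2 * (c.natAbs : ℝ) / κ⌉₊ + 1 ≤ x := (le_max_right _ _).trans hx
  have h1 := h x hx0
  rw [gb_deg] at h1
  have hxsq : 1 ≤ x ^ 2 := Nat.one_le_pow _ _ (by omega)
  have hsub : exceptions b c Λ δ x ⊆ Icc 1 c.natAbs ∪
      ((Icc 1 ((c.natAbs + 1) * x ^ 2)).filter (fun k => Loc1 (-1) (gb b) k ∧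
        ((Arg1 (isolated Λ) (-1) (gb b) x k).card : ℝ) < δ * (x / Real.log x ^ 2))).image
        (fun k : ℕ => ((k : ℤ) + c).toNat) := by
    intro n hn
    unfold exceptions at hn
    rw [mem_filter, mem_Icc] at hn
    obtain ⟨⟨hn1, hn2⟩, hodd, hno⟩ := hn
    rw [mem_union]
    by_cases hsm : n ≤ c.natAbs
    · left
      rw [mem_Icc]
      exact ⟨hn1, hsm⟩
    right
    push Not at hsm
    have hpos : 0 < (n : ℤ) - c := by omega
    obtain ⟨k, hk⟩ : ∃ k : ℕ, (k : ℤ) = n - c := ⟨((n : ℤ) - c).toNat, Int.toNat_of_nonneg hpos.le⟩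
    rw [mem_image]
    refine ⟨k, ?_, by rw [hk]; simp⟩
    rw [mem_filter, mem_Icc]
    refine ⟨⟨by omega, ?_⟩, loc b c hbc hb n k hodd hk, lt_of_le_of_lt ?_ hno⟩
    · have e1 : (c.natAbs + 1) * x ^ 2 = c.natAbs * x ^ 2 + x ^ 2 := by ring
      have e2 : c.natAbs ≤ c.natAbs * x ^ 2 := Nat.le_mul_of_pos_right _ hxsq
      omega
    · apply Nat.cast_le.2
      apply card_le_card
      intro p hp
      unfold Arg1 at hp
      unfold representations
      rw [mem_filter] at hp ⊢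
      refine ⟨hp.1, hp.2.1, hp.2.2.1, ?_⟩
      have h4 := hp.2.2.2
      rw [gb_eval, hk] at h4
      have e1 : (n : ℤ) - c + -1 * ((p : ℤ) ^ 2 + b * p) = (n : ℤ) - ((p : ℤ) ^ 2 + b * p + c) := by
        ring
      rwa [e1] at h4
  have h2 := (card_le_card hsub).trans (card_union_le _ _)
  rw [Nat.card_Icc, Nat.add_sub_cancel] at h2
  have h3 : ((exceptions b c Λ δ x).card : ℝ) ≤ (c.natAbs : ℝ) +
      (((Icc 1 ((c.natAbs + 1) * x ^ 2)).filter (fun k => Loc1 (-1) (gb b) k ∧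
        ((Arg1 (isolated Λ) (-1) (gb b) x k).card : ℝ) < δ * (x / Real.log x ^ 2))).card : ℝ) := by
    exact_mod_cast h2.trans (Nat.add_le_add_left card_image_le _)
  have h4 : (c.natAbs : ℝ) ≤ κ / 2 * (x : ℝ) ^ 2 := by
    have e1 : 2 * (c.natAbs : ℝ) / κ ≤ x := by
      have : (⌈2 * (c.natAbs : ℝ) / κ⌉₊ : ℝ) ≤ x := by
        have : ⌈2 * (c.natAbs : ℝ) / κ⌉₊ ≤ x := by omega
        exact_mod_cast this
      exact (Nat.le_ceil _).trans this
    rw [div_le_iff₀ hκ] at e1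
    have e2 : (1 : ℝ) ≤ x := by
      have : 1 ≤ x := by omega
      exact_mod_cast this
    nlinarith
  linarith

end Pool.Agent.Results.MP_d9bc60_nt.IsolatedFirstPrime
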