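import Pool.Agent.V11249.NP.Fam
import Pool.Agent.V11249.NP.UniG

/-!
# Progressions in the representations `n = f(p) + p'`, uniformly in `n` and in the quadratic polynomial `f`

For all admissible `f = x ^ 2 + b x + c`, all odd `n` and all windows `(A, A + N]`: the set of the primes `p` in the
window for which `|n - f(p)|` is prime has the expected order of magnitude `N V` if and only if the number of its
`k`-term arithmetic progressions with differences up to `D` has the expected order of magnitude `N D V ^ k`, for all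
`D` between a power of `log N` and `N`. The constants depend only on `k`. The same holds for all sets of integers at
which `x` and `n - f(x)` have no prime factor `≤ N ^ κ` (Szemerédi's theorem relative to these sets, and its converse).
-/

set_option autoImplicit false

open Finset

namespace Pool.Agent.Results.MP_d9bc60_nt.ProgressionsOfRepresentations

/-- the polynomial `x ^ 2 + b x + c` is admissible: `b` and `c` have opposite parity and `3 ∤ b` -/
def Admissible (b c : ℤ) : Prop := Odd (b + c) ∧ ¬ 3 ∣ b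

/-- the number `n - f(x)` -/
def co (b c n : ℤ) (x : ℕ) : ℤ := n - ((x : ℤ) ^ 2 + b * x + c)

/-- the number of the `x` modulo `p` such that `p` divides `x (n - f(x))` -/
def omega (b c n : ℤ) (p : ℕ) : ℕ := ((range p).filter (fun x : ℕ => (p : ℤ) ∣ x * co b c n x)).card

/-- the sieve product over the primes `p ≤ N ^ κ` -/
noncomputable def V (b c n : ℤ) (κ : ℝ) (N : ℕ) : ℝ :=
  ∏ p ∈ (Icc 1 ⌊(N : ℝ) ^ κ⌋₊).filter Nat.Prime, (1 - (omega b c n p : ℝ) / p)

/-- the primes `p` in `(A, A + N]` for which `|n - f(p)|` is prime -/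
def P (b c n : ℤ) (A N : ℕ) : Finset ℕ := (Ioc A (A + N)).filter (fun p => p.Prime ∧ (co b c n p).natAbs.Prime)

/-- all prime factors of `x` and of `n - f(x)` are larger than `N ^ κ` -/
def Rough (b c n : ℤ) (κ : ℝ) (N x : ℕ) : Prop :=
  ∀ p : ℕ, p.Prime → (p : ℤ) ∣ x * co b c n x → (N : ℝ) ^ κ < p

open Classical in
/-- The number of the progressions `x, x + e, …, x + (k - 1) e` in `S` with `1 ≤ e ≤ D`. -/
noncomputable def AP (k D : ℕ) (S : Finset ℕ) : ℕ :=
  ((S ×ˢ Icc 1 D).filter (fun q => ∀ j < k, q.1 + j * q.2 ∈ S)).card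

open Pool.Agent.TH464.PW (quad quad_eval quad_deg)

/-- the two polynomials -/
noncomputable def F (b c n : ℤ) : Fin 2 → Polynomial ℤ := ![quad 0 1 0, quad (-1) (-b) (n - c)]

theorem ev0 (b c n : ℤ) (x : ℤ) : (F b c n 0).eval x = x := by
  show (quad 0 1 0).eval x = x
  rw [quad_eval]
  ring

theorem ev1 (b c n : ℤ) (x : ℕ) : (F b c n 1).eval (x : ℤ) = co b c n x := by
  show (quad (-1) (-b) (n - c)).eval (x : ℤ) = _
  rw [quad_eval]
  unfold co
  ring

theorem us {b c n : ℤ} (h : Admissible b c) (hn : Odd n) : Pool.Agent.V11249.NP.UniG.US 2 (F b c n) := by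
  refine ⟨fun i => ?_, fun p hp => ?_⟩
  · fin_cases i
    · have : (F b c n 0).natDegree = 1 := by
        show (quad 0 1 0).natDegree = 1
        have e : quad 0 1 0 = (Polynomial.X : Polynomial ℤ) := by
          unfold quad
          simp
        rw [e]
        exact Polynomial.natDegree_X
      show 1 ≤ (F b c n 0).natDegree ∧ (F b c n 0).natDegree ≤ 2
      omega
    · have : (F b c n 1).natDegree = 2 := quad_deg _ _ _ (by norm_num)
      show 1 ≤ (F b c n 1).natDegree ∧ (F b c n 1).natDegree ≤ 2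
      omega
  · have key : ∀ m : ℕ, ¬ (p : ℤ) ∣ (m : ℤ) → ¬ (p : ℤ) ∣ co b c n m → ∃ m : ℕ, ∀ i, ¬ (p : ℤ) ∣ (F b c n i).eval (m : ℤ) := by
      intro m h1 h2
      refine ⟨m, fun i => ?_⟩
      fin_cases i
      · show ¬ (p : ℤ) ∣ (F b c n 0).eval (m : ℤ)
        rwa [ev0]
      · show ¬ (p : ℤ) ∣ (F b c n 1).eval (m : ℤ)
        rwa [ev1]
    have hnd : ∀ m : ℕ, 1 ≤ m → m < p → ¬ (p : ℤ) ∣ (m : ℤ) := by
      intro m h1 h2 hd
      exact absurd (Nat.le_of_dvd h1 (Int.natCast_dvd_natCast.1 hd)) (by omega)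
    have hp2 := hp.two_le
    by_cases h1 : (p : ℤ) ∣ co b c n 1
    swap
    · exact key 1 (hnd 1 le_rfl (by omega)) h1
    have hp3 : 3 ≤ p := by
      by_contra hcon
      have hpe : p = 2 := by omega
      subst hpe
      unfold co at h1
      obtain ⟨u, hu⟩ := h.1
      obtain ⟨v, hv⟩ := hn
      have : ¬ (2 : ℤ) ∣ 2 * v + 1 - (2 * u + 2) := by omega
      apply this
      have e : 2 * v + 1 - (2 * u + 2) = n - (((1 : ℕ) : ℤ) ^ 2 + b * ((1 : ℕ) : ℤ) + c) := by
        rw [hv]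
        push_cast
        linarith
      rw [e]
      exact_mod_cast h1
    by_cases h2 : (p : ℤ) ∣ co b c n 2
    swap
    · exact key 2 (hnd 2 (by norm_num) (by omega)) h2
    have h12 : (p : ℤ) ∣ 3 + b := by
      have := dvd_sub h1 h2
      have e : co b c n 1 - co b c n 2 = 3 + b := by
        unfold co
        push_cast
        ring
      rwa [e] at this
    have hp4 : 4 ≤ p := by
      by_contra hcon
      have hpe : p = 3 := by omega
      subst hpe
      apply h.2
      have : (3 : ℤ) ∣ 3 + b := by exact_mod_cast h12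
      omega
    by_cases h3 : (p : ℤ) ∣ co b c n 3
    swap
    · exact key 3 (hnd 3 (by norm_num) (by omega)) h3
    exfalso
    have h23 : (p : ℤ) ∣ 5 + b := by
      have := dvd_sub h2 h3
      have e : co b c n 2 - co b c n 3 = 5 + b := by
        unfold co
        push_cast
        ring
      rwa [e] at this
    have h4 := dvd_sub h23 h12
    have e : (5 + b) - (3 + b) = ((2 : ℕ) : ℤ) := by
      push_cast
      ring
    rw [e] at h4
    have := Nat.le_of_dvd (by norm_num) (Int.natCast_dvd_natCast.1 h4)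
    omega

/-- For every `k ≥ 1`, with constants which do not depend on the admissible pair `(b, c)`, nor on the odd number `n`,
nor on `A`:
(1) for `κ > 0` a set `S` of integers `x` of `(A, A + N]` at which `x` and `n - f(x)` have no prime factor `≤ N ^ κ`
contains at most `C N D V ^ k` progressions of length `k` with differences at most `D`;
(2) it contains at least `c₀ N D V ^ k` of them if it has at least `δ N V` elements, and it has at least
`c₀ N V` elements if it contains at least `δ N D V ^ k` of them, for all `D` between `log ^ B N` and `N`;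
(3), (4) the same for the set `P b c n A N` (with `κ = 1/4` in `V`). -/
theorem result (k : ℕ) (hk : 1 ≤ k) :
    (∀ κ : ℝ, 0 < κ → ∃ C : ℝ, 0 < C ∧ ∃ B N₀ : ℕ, ∀ b c n : ℤ, Admissible b c → Odd n → ∀ N A D : ℕ,
      N₀ ≤ N → Real.log N ^ B ≤ D → ∀ S : Finset ℕ, S ⊆ Ioc A (A + N) → (∀ x ∈ S, Rough b c n κ N x) →
        (AP k D S : ℝ) ≤ C * (N * D * V b c n κ N ^ k)) ∧
    (∀ κ δ : ℝ, 0 < κ → 0 < δ → ∃ c₀ : ℝ, 0 < c₀ ∧ ∃ B N₀ : ℕ, ∀ b c n : ℤ, Admissible b c → Odd n →
      ∀ N A D : ℕ, N₀ ≤ N → Real.log N ^ B ≤ D → D ≤ N → ∀ S : Finset ℕ, S ⊆ Ioc A (A + N) →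
        (∀ x ∈ S, Rough b c n κ N x) →
        (δ * (N * V b c n κ N) ≤ S.card → c₀ * (N * D * V b c n κ N ^ k) ≤ AP k D S) ∧
        (δ * (N * D * V b c n κ N ^ k) ≤ AP k D S → c₀ * (N * V b c n κ N) ≤ S.card)) ∧
    (∃ C : ℝ, 0 < C ∧ ∃ B N₀ : ℕ, ∀ b c n : ℤ, Admissible b c → Odd n → ∀ N A D : ℕ, N₀ ≤ N →
      Real.log N ^ B ≤ D → (AP k D (P b c n A N) : ℝ) ≤ C * (N * D * V b c n (1 / 4) N ^ k)) ∧
    (∀ δ : ℝ, 0 < δ → ∃ c₀ : ℝ, 0 < c₀ ∧ ∃ B N₀ : ℕ, ∀ b c n : ℤ, Admissible b c → Odd n → ∀ N A D : ℕ,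
      N₀ ≤ N → Real.log N ^ B ≤ D → D ≤ N →
      (δ * (N * V b c n (1 / 4) N) ≤ (P b c n A N).card →
        c₀ * (N * D * V b c n (1 / 4) N ^ k) ≤ AP k D (P b c n A N)) ∧
      (δ * (N * D * V b c n (1 / 4) N ^ k) ≤ AP k D (P b c n A N) →
        c₀ * (N * V b c n (1 / 4) N) ≤ (P b c n A N).card)) := by
  obtain ⟨a1, a2, a3, a4⟩ := Pool.Agent.V11249.NP.UniG.transfer 2 2
    (Θ := ℤ × ℤ × ℤ) (fun θ => F θ.1 θ.2.1 θ.2.2)
    (fun θ => Admissible θ.1 θ.2.1 ∧ Odd θ.2.2) (fun θ h => us h.1 h.2)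
    (fun θ κ N x => Rough θ.1 θ.2.1 θ.2.2 κ N x) (fun θ A N => P θ.1 θ.2.1 θ.2.2 A N)
    (fun θ κ N => V θ.1 θ.2.1 θ.2.2 κ N)
    (by
      intro θ _ κ N x h i p hp hd
      refine h p hp ?_
      fin_cases i
      · have hd' : (p : ℤ) ∣ (F θ.1 θ.2.1 θ.2.2 0).eval (x : ℤ) := hd
        rw [ev0] at hd'
        exact hd'.mul_right _
      · have hd' : (p : ℤ) ∣ (F θ.1 θ.2.1 θ.2.2 1).eval (x : ℤ) := hd
        rw [ev1] at hd'
        exact hd'.mul_left _)
    (by
      intro θ _ A N x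
      unfold P
      rw [mem_filter, mem_Ioc, Fin.forall_fin_two, ev0, ev1, Int.natAbs_natCast])
    (by
      intro θ _ κ N
      refine Pool.Agent.V11249.NP.UniG.V_eq _ κ N _ (fun p hp => ?_)
      unfold omega
      congr 1
      ext x
      rw [Pool.Agent.V11249.NP.UniG.mem_ZZ, mem_filter, mem_range, Fin.exists_fin_two, ev0, ev1]
      refine and_congr_right fun _ => ?_
      exact (Nat.prime_iff_prime_int.1 hp).dvd_mul)
    k hk
  refine ⟨?_, ?_, ?_, ?_⟩
  · intro κ hκ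
    obtain ⟨C, hC, B, N₀, h⟩ := a1 κ hκ
    exact ⟨C, hC, B, N₀, fun b c n hf hn N A D hN hD S hS hR => h (b, c, n) ⟨hf, hn⟩ N A D hN hD S hS hR⟩
  · intro κ δ hκ hδ
    obtain ⟨c₀, hc, B, N₀, h⟩ := a2 κ δ hκ hδ
    exact ⟨c₀, hc, B, N₀, fun b c n hf hn N A D hN hD hDN S hS hR => h (b, c, n) ⟨hf, hn⟩ N A D hN hD hDN S hS hR⟩
  · obtain ⟨C, hC, B, N₀, h⟩ := a3
    exact ⟨C, hC, B, N₀, fun b c n hf hn N A D hN hD => h (b, c, n) ⟨hf, hn⟩ N A D hN hD⟩
  · intro δ hδ
    obtain ⟨c₀, hc, B, N₀, h⟩ := a4 δ hδ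
    exact ⟨c₀, hc, B, N₀, fun b c n hf hn N A D hN hD hDN => h (b, c, n) ⟨hf, hn⟩ N A D hN hD hDN⟩

end Pool.Agent.Results.MP_d9bc60_nt.ProgressionsOfRepresentations
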