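import Pool.Agent.H225.LF2

/-!
# `n = f(x) + y` for every odd `n` and all admissible `f`, `x` with restricted digits

Let `b ≥ 2` be a base.  Write `x = M + t` with an arbitrary base point `M ≤ b^{EK}` and let the digits of
`t < b^K` be restricted: the `i`-th digit belongs to a set `A i`, where the sets `A i` are arbitrary,
depend on the place `i < K`, and have the only property that the number `∏ |A i|` of these `x` is at
least `e^{-δK} b^K`, where the constant `δ > 0` does not depend on `b`.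

Let `f(x) = x^2 + β x + γ` be ANY admissible polynomial with `|β|, |γ| ≤ b^{EK}` and `n ≤ b^{EK}` ANY odd
integer such that `f(x) + b^K ≤ n` for `x` in the block `[M, M + b^K)`.  Then the sieve product `V` of
`x (n - f(x))` is at least `κ / K^3`; for at most `C V ∏ |A i|` of these `x` both `x` and `n - f(x)` are
primes; and (if the last digit can be chosen such that both are prime to `b`) for at least
`κ V ∏ |A i|` of these `x` both `x` and `n - f(x)` have at most `r` prime factors, all larger than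
`b^{K/r}`.  The constants do not depend on `n` and `f`.
-/

set_option autoImplicit false

namespace Pool.Agent.Results.MP_d9bc60_nt.RestrictedDigits

open Finset Filter

/-- The polynomial `x ^ 2 + β x + γ`. -/
def f (β γ x : ℤ) : ℤ := x ^ 2 + β * x + γ

/-- `f` is admissible: `β` and `γ` have opposite parity and `3 ∤ β`. -/
def Admissible (β γ : ℤ) : Prop := Odd (β + γ) ∧ ¬ (3 : ℤ) ∣ β

open Classical in
/-- The number of the `x` modulo `p` for which `p` divides `x (n - f(x))`. -/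
noncomputable def nu (β γ n : ℤ) (p : ℕ) : ℕ :=
  ((range p).filter (fun x : ℕ => (p : ℤ) ∣ (x : ℤ) * (n - f β γ x))).card

/-- The product of `1 - nu p / p` over the primes `p ≤ y`. -/
noncomputable def V (β γ n : ℤ) (y : ℕ) : ℝ :=
  ∏ p ∈ (Icc 1 y).filter Nat.Prime, (1 - (nu β γ n p : ℝ) / p)

open Classical in
/-- The number of the `t < b ^ K`, whose `i`-th digit in base `b` belongs to `A i` for all `i < K`, such
that `M + t` belongs to `T`. -/
noncomputable def count (b K M : ℕ) (A : ℕ → Finset ℕ) (T : Set ℕ) : ℕ :=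
  ((range (b ^ K)).filter (fun t => (∀ i < K, t / b ^ i % b ∈ A i) ∧ M + t ∈ T)).card

/-- The number of choices of the digits. -/
noncomputable def choices (K : ℕ) (A : ℕ → Finset ℕ) : ℝ := ∏ i ∈ range K, ((A i).card : ℝ)

/-- `m` has at most `r` prime factors, counted with multiplicity, and all of them are larger than
`z ^ (1 / r)`. -/
def AlmostPrime (r z m : ℕ) : Prop :=
  (∀ p : ℕ, p.Prime → p ∣ m → z < p ^ r) ∧ m.primeFactorsList.length ≤ r

open Pool.Agent.Y816.PD (WG NA ND ND_sub NA_nonneg)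

/-- the two forms at `x = M + t` -/
def F (β γ n : ℤ) (M : ℕ) : Fin 2 → ℕ → ℤ :=
  ![fun t => ((M + t : ℕ) : ℤ), fun t => n - f β γ ((M + t : ℕ) : ℤ)]

open Polynomial in
/-- the two polynomials -/
noncomputable def P (β γ n M : ℤ) : Fin 2 → ℤ[X] :=
  ![X + C M, C n - ((X + C M) ^ 2 + C β * (X + C M) + C γ)]

lemma eval_P (β γ n : ℤ) (M : ℕ) (i : Fin 2) (t : ℕ) :
    (P β γ n M i).eval (t : ℤ) = F β γ n M i t := by
  fin_cases i
  · simp [P, F, add_comm]
  · simp [P, F, f]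
    ring

lemma deg_P (β γ n M : ℤ) (i : Fin 2) : (P β γ n M i).natDegree ≤ ![1, 2] i := by
  fin_cases i
  · change (Polynomial.X + Polynomial.C M : Polynomial ℤ).natDegree ≤ 1
    compute_degree
  · change (Polynomial.C n - ((Polynomial.X + Polynomial.C M) ^ 2 +
      Polynomial.C β * (Polynomial.X + Polynomial.C M) + Polynomial.C γ) :
      Polynomial ℤ).natDegree ≤ 2
    compute_degree

lemma prod_F (β γ n : ℤ) (M t : ℕ) : ∏ i, F β γ n M i t =
    ((M + t : ℕ) : ℤ) * (n - f β γ ((M + t : ℕ) : ℤ)) := by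
  rw [Fin.prod_univ_two]
  rfl

open Classical in
lemma card_eq (β γ n : ℤ) (M p : ℕ) :
    ((range p).filter (fun t : ℕ => (p : ℤ) ∣ ∏ i, F β γ n M i t)).card = nu β γ n p := by
  unfold nu
  rw [← Pool.Agent.H225.LF.card_shift
    (fun x : ℕ => (p : ℤ) ∣ (x : ℤ) * (n - f β γ x)) p M (fun x => ?_)]
  · congr 1
    refine filter_congr fun t _ => ?_
    rw [prod_F]
  · have e : ((x + p : ℕ) : ℤ) * (n - f β γ ((x + p : ℕ) : ℤ)) - (x : ℤ) * (n - f β γ x) =
        p * ((n - f β γ ((x + p : ℕ) : ℤ)) + x * (-(2 * x + p + β))) := by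
      unfold f
      push_cast
      ring
    exact dvd_iff_dvd_of_dvd_sub (by rw [e]; exact dvd_mul_right _ _)

lemma WG_eq (β γ n : ℤ) (M y : ℕ) : WG (fun t => ∏ i, F β γ n M i t) y = V β γ n y := by
  classical
  unfold WG V
  refine prod_congr rfl fun p _ => ?_
  rw [← card_eq β γ n M p]

open Classical in
/-- the roots of the two factors -/
lemma roots {β γ n : ℤ} (hadm : Admissible β γ) (hn : Odd n) {p : ℕ} (hp : p.Prime) :
    nu β γ n p ≤ 3 ∧ nu β γ n p < p := by
  have hpp := hp.two_le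
  have hpi : Prime (p : ℤ) := Nat.prime_iff_prime_int.1 hp
  obtain ⟨h1, h2⟩ := hadm
  -- small primes
  have hsmall : p = 2 ∨ p = 3 → ∃ x ∈ range p, ¬ (p : ℤ) ∣ (x : ℤ) * (n - f β γ x) := by
    rintro (rfl | rfl)
    · refine ⟨1, by simp, fun h => ?_⟩
      obtain ⟨u, hu⟩ := h1
      obtain ⟨w, hw⟩ := hn
      unfold f at h
      push_cast at h
      omega
    · by_contra hcon
      push Not at hcon
      have h3 := hcon 1 (by simp)
      have h4 := hcon 2 (by simp)
      unfold f at h3 h4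
      push_cast at h3 h4
      omega
  -- the quadratic factor has at most two roots
  have hq2 : ((range p).filter (fun x : ℕ => (p : ℤ) ∣ n - f β γ x)).card ≤ 2 := by
    by_contra hcon
    push Not at hcon
    obtain ⟨x, hx, y, hy, z, hz, hxy, hxz, hyz⟩ := two_lt_card.1 hcon
    rw [mem_filter, mem_range] at hx hy hz
    have key : ∀ y : ℕ, y < p → (p : ℤ) ∣ n - f β γ y → x ≠ y → (p : ℤ) ∣ x + y + β := by
      intro y hy1 hy2 hne
      have h3 := dvd_sub hy2 hx.2
      have e : n - f β γ y - (n - f β γ x) = ((x : ℤ) - y) * (x + y + β) := by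
        unfold f
        ring
      rw [e] at h3
      rcases hpi.dvd_or_dvd h3 with h4 | h4
      · exfalso
        have h5 : (y : ℤ) ≡ x [ZMOD p] := Int.modEq_iff_dvd.2 h4
        have h6 : y ≡ x [MOD p] := Int.natCast_modEq_iff.1 h5
        unfold Nat.ModEq at h6
        rw [Nat.mod_eq_of_lt hx.1, Nat.mod_eq_of_lt hy1] at h6
        exact hne h6.symm
      · exact h4
    have h3 := dvd_sub (key y hy.1 hy.2 hxy) (key z hz.1 hz.2 hxz)
    have e : (x : ℤ) + y + β - (x + z + β) = (y : ℤ) - z := by ring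
    rw [e] at h3
    have h5 : (z : ℤ) ≡ y [ZMOD p] := Int.modEq_iff_dvd.2 h3
    have h6 : z ≡ y [MOD p] := Int.natCast_modEq_iff.1 h5
    unfold Nat.ModEq at h6
    rw [Nat.mod_eq_of_lt hy.1, Nat.mod_eq_of_lt hz.1] at h6
    exact hyz h6.symm
  have hle : nu β γ n p ≤ 1 + ((range p).filter (fun x : ℕ => (p : ℤ) ∣ n - f β γ x)).card := by
    have h3 : (range p).filter (fun x : ℕ => (p : ℤ) ∣ (x : ℤ) * (n - f β γ x)) ⊆
        {0} ∪ (range p).filter (fun x : ℕ => (p : ℤ) ∣ n - f β γ x) := by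
      intro x hx
      rw [mem_filter, mem_range] at hx
      rw [mem_union, mem_singleton, mem_filter, mem_range]
      rcases hpi.dvd_or_dvd hx.2 with h | h
      · left
        exact Nat.eq_zero_of_dvd_of_lt (Int.natCast_dvd_natCast.1 h) hx.1
      · right
        exact ⟨hx.1, h⟩
    unfold nu
    refine (card_le_card h3).trans ((card_union_le _ _).trans ?_)
    rw [card_singleton]
  have hlt : (p = 2 ∨ p = 3) → nu β γ n p < p := by
    intro h
    obtain ⟨x, hx, hx'⟩ := hsmall h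
    unfold nu
    refine lt_of_lt_of_eq (card_lt_card ?_) (card_range p)
    rw [filter_ssubset]
    exact ⟨x, hx, hx'⟩
  by_cases h5 : p < 5
  · have hcase : p = 2 ∨ p = 3 := by
      interval_cases p
      · left; rfl
      · right; rfl
      · exact absurd hp (by norm_num)
    have h6 := hlt hcase
    omega
  · omega

lemma adm {β γ n : ℤ} (hadm : Admissible β γ) (hn : Odd n) (M : ℕ) {p : ℕ} (hp : p.Prime) :
    ∃ t : ℕ, ∀ i, ¬ (p : ℤ) ∣ F β γ n M i t := by
  classical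
  have h1 := (roots hadm hn hp).2
  rw [← card_eq β γ n M p] at h1
  have h2 : ((range p).filter (fun t : ℕ => (p : ℤ) ∣ ∏ i, F β γ n M i t)).card < (range p).card := by
    rwa [card_range]
  obtain ⟨t, ht, ht'⟩ := exists_mem_notMem_of_card_lt_card h2
  exact ⟨t, fun i hi => ht' (mem_filter.2 ⟨ht, hi.trans (dvd_prod_of_mem _ (mem_univ i))⟩)⟩

/-- **`n = f(x) + y` for every odd `n` and all admissible `f`, `x` with restricted digits.** -/
theorem result (E : ℕ) :
    ∃ δ : ℝ, 0 < δ ∧ ∃ r₀ : ℕ, 2 ≤ r₀ ∧ ∀ r : ℕ, r₀ ≤ r → ∀ b : ℕ, 2 ≤ b →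
      ∃ κ C : ℝ, 0 < κ ∧ 0 < C ∧ ∀ᶠ K : ℕ in atTop, ∀ β γ : ℤ, ∀ n M : ℕ, Admissible β γ → Odd n →
        β.natAbs ≤ b ^ (E * K) → γ.natAbs ≤ b ^ (E * K) → n ≤ b ^ (E * K) → M ≤ b ^ (E * K) →
        (∀ t < b ^ K, f β γ ((M + t : ℕ) : ℤ) + ((b ^ K : ℕ) : ℤ) ≤ n) →
        ∀ A : ℕ → Finset ℕ, (∀ i < K, A i ⊆ range b) →
        (b : ℝ) ^ K ≤ Real.exp (δ * K) * choices K A →
        κ / (K : ℝ) ^ 3 ≤ V β γ n (b ^ K) ∧
        ((∃ e ∈ A 0, (M + e).Coprime b ∧ Int.gcd (n - f β γ ((M + e : ℕ) : ℤ)) b = 1) →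
          (∃ e ∈ A (K - 1), e ≠ 0) →
          κ * choices K A * V β γ n (b ^ K) ≤ count b K M A {x | ∃ y : ℕ, (n : ℤ) = f β γ x + y ∧
            AlmostPrime r (b ^ K) x ∧ AlmostPrime r (b ^ K) y}) ∧
        (count b K M A {x | x.Prime ∧ ∃ y : ℕ, y.Prime ∧ (n : ℤ) = f β γ x + y} : ℝ) ≤
          C * choices K A * V β γ n (b ^ K) := by
  classical
  obtain ⟨δ, hδ, r₀, hr₀, h⟩ := Pool.Agent.H225.DG.gen 2 2 (2 * E + 4) (by norm_num) (by norm_num)
  refine ⟨δ, hδ, r₀, hr₀, fun r hr b hb => ?_⟩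
  obtain ⟨κ, C, hκ, hC, h1⟩ := h r hr b hb
  obtain ⟨v, hv, hW⟩ := Pool.Agent.H225.VL.lower 3 b (by norm_num) hb
  refine ⟨min κ v, C, lt_min hκ hv, hC, ?_⟩
  filter_upwards [h1, hW, eventually_ge_atTop 2] with K hK hWK hK2 β γ n M hadm hnodd hβ hγ hn hM
    hpos A hA hprod
  have hnodd' : Odd (n : ℤ) := by exact_mod_cast hnodd
  have hbK : 4 ≤ b ^ K := by
    calc 4 = 2 ^ 2 := by norm_num
      _ ≤ 2 ^ K := Nat.pow_le_pow_right (by norm_num) hK2
      _ ≤ b ^ K := Nat.pow_le_pow_left hb K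
  have hE1 : 1 ≤ b ^ (E * K) := Nat.one_le_pow _ _ (by omega)
  -- the value of the second form
  have hval : ∀ t < b ^ K, ∃ y : ℕ, (n : ℤ) - f β γ ((M + t : ℕ) : ℤ) = y ∧ b ^ K ≤ y := by
    intro t ht
    have h2 := hpos t ht
    refine ⟨((n : ℤ) - f β γ ((M + t : ℕ) : ℤ)).toNat, ?_, ?_⟩
    · rw [Int.toNat_of_nonneg]
      have : (0 : ℤ) ≤ ((b ^ K : ℕ) : ℤ) := Int.natCast_nonneg _
      linarith
    · have h3 : ((b ^ K : ℕ) : ℤ) ≤ (n : ℤ) - f β γ ((M + t : ℕ) : ℤ) := by linarith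
      have := Int.toNat_le_toNat h3
      rwa [Int.toNat_natCast] at this
  have hsize : ∀ t : ℕ, t < b ^ K → ∀ i, (F β γ n M i t).natAbs ≤ b ^ ((2 * E + 4) * K) := by
    intro t ht i
    have e : b ^ ((2 * E + 4) * K) = (b ^ (E * K) * b ^ K * b ^ K) * (b ^ (E * K) * b ^ K * b ^ K) := by
      rw [← pow_add, ← pow_add, ← pow_add]
      congr 1
      ring
    rw [e]
    obtain ⟨X, hX⟩ : ∃ X, X = b ^ (E * K) := ⟨_, rfl⟩
    obtain ⟨Y, hY⟩ : ∃ Y, Y = b ^ K := ⟨_, rfl⟩
    rw [← hX] at hn hM hE1 hβ hγ ⊢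
    rw [← hY] at ht hbK ⊢
    have h2 : M + t ≤ X * Y := by
      obtain ⟨x, rfl⟩ := Nat.exists_eq_add_of_le hE1
      obtain ⟨y, rfl⟩ := Nat.exists_eq_add_of_le hbK
      nlinarith [Nat.zero_le (x * y)]
    have hXY : X ≤ X * Y := Nat.le_mul_of_pos_right _ (by omega)
    have h1' : 1 ≤ X * Y := hE1.trans hXY
    have h3 : X * Y ≤ (X * Y) * (X * Y) := Nat.le_mul_of_pos_right _ h1'
    have h4 : (X * Y) * (X * Y) * 16 ≤ (X * Y * Y) * (X * Y * Y) := by
      have h9 : 16 ≤ Y * Y := Nat.mul_le_mul hbK hbK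
      calc (X * Y) * (X * Y) * 16 ≤ (X * Y) * (X * Y) * (Y * Y) := Nat.mul_le_mul_left _ h9
        _ = _ := by ring
    fin_cases i
    · change ((M + t : ℕ) : ℤ).natAbs ≤ _
      rw [Int.natAbs_natCast]
      omega
    · change ((n : ℤ) - f β γ ((M + t : ℕ) : ℤ)).natAbs ≤ _
      have h5 : ((n : ℤ) - f β γ ((M + t : ℕ) : ℤ)).natAbs ≤
          n + ((M + t) * (M + t) + β.natAbs * (M + t) + γ.natAbs) := by
        refine (Int.natAbs_sub_le _ _).trans ?_
        rw [Int.natAbs_natCast]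
        refine Nat.add_le_add_left ?_ n
        unfold f
        refine (Int.natAbs_add_le _ _).trans (Nat.add_le_add_right ?_ _)
        refine (Int.natAbs_add_le _ _).trans ?_
        rw [Int.natAbs_mul, Int.natAbs_pow, Int.natAbs_natCast, sq]
      have h6 : (M + t) * (M + t) ≤ (X * Y) * (X * Y) := Nat.mul_le_mul h2 h2
      have h7 : β.natAbs * (M + t) ≤ (X * Y) * (X * Y) := Nat.mul_le_mul (hβ.trans hXY) h2
      omega
  obtain ⟨h2, h3⟩ := hK (F β γ n M) (fun i => ⟨P β γ n M i, (deg_P _ _ _ _ i).trans (by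
      fin_cases i <;> decide), fun t => eval_P _ _ _ _ i t⟩) (fun p hp => adm hadm hnodd' M hp)
    hsize A hA hprod
  rw [WG_eq] at h2 h3
  have hVlow : v / (K : ℝ) ^ 3 ≤ V β γ n (b ^ K) := by
    rw [← WG_eq β γ n M]
    exact hWK _ (fun p hp => by
        have h5 := (roots hadm hnodd' hp).1
        rw [← card_eq β γ n M p] at h5
        convert h5)
      (fun p hp => by
        have h5 := (roots hadm hnodd' hp).2
        rw [← card_eq β γ n M p] at h5
        convert h5)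
  have hNA : 0 ≤ choices K A := NA_nonneg K A
  have hV0 : 0 ≤ V β γ n (b ^ K) := le_trans (by positivity) hVlow
  refine ⟨le_trans ?_ hVlow, ?_, ?_⟩
  · exact div_le_div_of_nonneg_right (min_le_right _ _) (by positivity)
  · rintro ⟨e, he, hc1, hc2⟩ htop
    refine le_trans (mul_le_mul_of_nonneg_right (mul_le_mul_of_nonneg_right (min_le_left _ _) hNA)
      hV0) ((h2 ⟨e, he, fun i => ?_⟩ htop).trans (Nat.cast_le.2 (ND_sub fun t ht ht1 ht2 =>
        ⟨ht1, ?_⟩)))
    · fin_cases i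
      · change ((M + e : ℕ) : ℤ).natAbs.Coprime b
        rw [Int.natAbs_natCast]
        exact hc1
      · exact hc2
    · obtain ⟨y, hy, -⟩ := hval t ht
      have g0 := ht2.2 0
      have g1 := ht2.2 1
      change AlmostPrime r (b ^ K) ((M + t : ℕ) : ℤ).natAbs at g0
      change AlmostPrime r (b ^ K) ((n : ℤ) - f β γ ((M + t : ℕ) : ℤ)).natAbs at g1
      rw [Int.natAbs_natCast] at g0
      rw [hy, Int.natAbs_natCast] at g1
      exact ⟨y, by linarith, g0, g1⟩
  · refine le_trans (Nat.cast_le.2 ?_) h3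
    refine ND_sub fun t ht ht1 ht2 => ⟨ht1, ?_⟩
    obtain ⟨hp1, y, hp2, hy⟩ := ht2
    have hr2 : 2 ≤ r := hr₀.trans hr
    have hlt : ∀ x : ℕ, x.Prime → t ≤ x → t < x ^ r := fun x hx h8 => by
      have h9 : x ^ 2 ≤ x ^ r := Nat.pow_le_pow_right hx.pos hr2
      have := hx.two_le
      nlinarith
    obtain ⟨y', hy', hyK⟩ := hval t ht
    have hyy : y = y' := by
      have : (y : ℤ) = y' := by linarith
      exact_mod_cast this
    subst hyy
    intro i
    fin_cases i
    · change ((M + t : ℕ) : ℤ).natAbs.Prime ∧ t < ((M + t : ℕ) : ℤ).natAbs ^ r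
      rw [Int.natAbs_natCast]
      exact ⟨hp1, hlt _ hp1 (Nat.le_add_left _ _)⟩
    · change ((n : ℤ) - f β γ ((M + t : ℕ) : ℤ)).natAbs.Prime ∧
        t < ((n : ℤ) - f β γ ((M + t : ℕ) : ℤ)).natAbs ^ r
      rw [hy', Int.natAbs_natCast]
      exact ⟨hp2, hlt _ hp2 (by omega)⟩

end Pool.Agent.Results.MP_d9bc60_nt.RestrictedDigits
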